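import Mathlib

set_option autoImplicit false

/-!
# Norms and radicals in number fields
-/

namespace Pool.Agent.U624.Ico

open NumberField IsDedekindDomain

variable {K : Type} [Field K] [NumberField K]

/-- the absolute value of the norm -/
noncomputable def nrm (x : 𝓞 K) : ℝ := ∏ φ : K →+* ℂ, ‖φ (x : K)‖

theorem nrm_nonneg (x : 𝓞 K) : 0 ≤ nrm x := Finset.prod_nonneg fun _ _ => norm_nonneg _

theorem nrm_mul (x y : 𝓞 K) : nrm (x * y) = nrm x * nrm y := by
  unfold nrm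
  rw [← Finset.prod_mul_distrib]
  refine Finset.prod_congr rfl fun φ _ => ?_
  have h : ((x * y : 𝓞 K) : K) = (x : K) * (y : K) := rfl
  rw [h, map_mul, norm_mul]

theorem nrm_pow (x : 𝓞 K) (n : ℕ) : nrm (x ^ n) = nrm x ^ n := by
  unfold nrm
  rw [← Finset.prod_pow]
  refine Finset.prod_congr rfl fun φ _ => ?_
  have h : ((x ^ n : 𝓞 K) : K) = (x : K) ^ n := rfl
  rw [h, map_pow, norm_pow]

theorem nrm_one : nrm (1 : 𝓞 K) = 1 := by
  unfold nrm
  simp

theorem nrm_eq (x : 𝓞 K) : nrm x = |((Algebra.norm ℤ x : ℤ) : ℝ)| := by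
  have h1 := Algebra.norm_eq_prod_embeddings ℚ ℂ (x : K)
  have h2 : nrm x = ‖(algebraMap ℚ ℂ) (Algebra.norm ℚ (x : K))‖ := by
    rw [h1, norm_prod]
    unfold nrm
    exact Fintype.prod_equiv (RingHom.equivRatAlgHom K ℂ) _ _ fun φ => rfl
  rw [h2, ← Algebra.coe_norm_int]
  simp

theorem one_le_nrm {x : 𝓞 K} (hx : x ≠ 0) : 1 ≤ nrm x := by
  rw [nrm_eq]
  have h1 : Algebra.norm ℤ x ≠ 0 := Algebra.norm_ne_zero_iff.2 hx
  have h2 : (1 : ℤ) ≤ |Algebra.norm ℤ x| := Int.one_le_abs h1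
  exact_mod_cast h2

theorem nrm_pos {x : 𝓞 K} (hx : x ≠ 0) : 0 < nrm x := lt_of_lt_of_le one_pos (one_le_nrm hx)

theorem nrm_unit {x : 𝓞 K} (hx : IsUnit x) : nrm x = 1 := by
  obtain ⟨y, hy⟩ := hx.exists_right_inv
  have hx0 : x ≠ 0 := hx.ne_zero
  have hy0 : y ≠ 0 := by
    rintro rfl
    rw [mul_zero] at hy
    exact zero_ne_one hy
  have h1 : nrm x * nrm y = 1 := by rw [← nrm_mul, hy, nrm_one]
  have h2 := one_le_nrm hx0
  have h3 := one_le_nrm hy0
  nlinarith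

theorem nrm_le_of_dvd {m n : 𝓞 K} (h : m ∣ n) (hn : n ≠ 0) : nrm m ≤ nrm n := by
  obtain ⟨k, rfl⟩ := h
  rw [nrm_mul]
  exact le_mul_of_one_le_right (nrm_nonneg _) (one_le_nrm (right_ne_zero_of_mul hn))

/-- the primes dividing `n` -/
def P (n : 𝓞 K) : Set (HeightOneSpectrum (𝓞 K)) := {v | n ∈ v.asIdeal}

theorem P_finite {n : 𝓞 K} (hn : n ≠ 0) : (P n).Finite := by
  have h0 : Ideal.span {n} ≠ (0 : Ideal (𝓞 K)) := by
    intro h
    exact hn (Ideal.span_singleton_eq_bot.1 h)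
  refine (Ideal.finite_factors h0).subset ?_
  intro v hv
  exact Ideal.dvd_span_singleton.2 hv

/-- the norm of a prime -/
noncomputable def N (v : HeightOneSpectrum (𝓞 K)) : ℝ := (Ideal.absNorm v.asIdeal : ℝ)

theorem one_le_N (v : HeightOneSpectrum (𝓞 K)) : 1 ≤ N v := by
  unfold N
  have : Ideal.absNorm v.asIdeal ≠ 0 := by
    rw [Ne, Ideal.absNorm_eq_zero_iff]
    exact v.ne_bot
  exact_mod_cast Nat.one_le_iff_ne_zero.2 this

/-- the product of the norms of the primes dividing `n` -/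
noncomputable def rad (n : 𝓞 K) : ℝ :=
  ∏ᶠ (v : HeightOneSpectrum (𝓞 K)) (_ : n ∈ v.asIdeal), (Ideal.absNorm v.asIdeal : ℝ)

theorem rad_eq {n : 𝓞 K} (hn : n ≠ 0) : rad n = ∏ v ∈ (P_finite hn).toFinset, N v := by
  have : rad n = ∏ᶠ v ∈ P n, N v := rfl
  rw [this, finprod_mem_eq_finite_toFinset_prod _ (P_finite hn)]

theorem one_le_prod (S : Finset (HeightOneSpectrum (𝓞 K))) : 1 ≤ ∏ v ∈ S, N v := by
  calc (1 : ℝ) = ∏ v ∈ S, (1 : ℝ) := by simp
    _ ≤ ∏ v ∈ S, N v := Finset.prod_le_prod (fun _ _ => by norm_num) fun v _ => one_le_N v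

theorem prod_pos (S : Finset (HeightOneSpectrum (𝓞 K))) : 0 < ∏ v ∈ S, N v :=
  lt_of_lt_of_le one_pos (one_le_prod S)

theorem prod_mono {S T : Finset (HeightOneSpectrum (𝓞 K))} (h : S ⊆ T) :
    ∏ v ∈ S, N v ≤ ∏ v ∈ T, N v := by
  classical
  rw [← Finset.prod_sdiff h]
  exact le_mul_of_one_le_left (prod_pos S).le (one_le_prod _)

theorem one_le_rad {n : 𝓞 K} (hn : n ≠ 0) : 1 ≤ rad n := by
  rw [rad_eq hn]
  exact one_le_prod _

theorem rad_mono {m n : 𝓞 K} (hm : m ≠ 0) (hn : n ≠ 0) (h : P m ⊆ P n) : rad m ≤ rad n := by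
  rw [rad_eq hm, rad_eq hn]
  refine prod_mono ?_
  intro Q hQ
  rw [Set.Finite.mem_toFinset] at hQ ⊢
  exact h hQ

omit [NumberField K] in
theorem mem_mul {m n : 𝓞 K} {v : HeightOneSpectrum (𝓞 K)} :
    m * n ∈ v.asIdeal ↔ m ∈ v.asIdeal ∨ n ∈ v.asIdeal := v.isPrime.mul_mem_iff_mem_or_mem

omit [NumberField K] in
theorem mem_pow {m : 𝓞 K} {k : ℕ} {v : HeightOneSpectrum (𝓞 K)}
    (h : m ^ k ∈ v.asIdeal) : m ∈ v.asIdeal := v.isPrime.mem_of_pow_mem k h

theorem rad_mul_le {m n : 𝓞 K} (hm : m ≠ 0) (hn : n ≠ 0) :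
    rad (m * n) ≤ rad m * rad n := by
  classical
  rw [rad_eq (mul_ne_zero hm hn), rad_eq hm, rad_eq hn]
  have h1 : (P_finite (mul_ne_zero hm hn)).toFinset ⊆
      (P_finite hm).toFinset ∪ ((P_finite hn).toFinset \ (P_finite hm).toFinset) := by
    intro Q hQ
    rw [Set.Finite.mem_toFinset] at hQ
    rw [Finset.mem_union, Finset.mem_sdiff, Set.Finite.mem_toFinset, Set.Finite.mem_toFinset]
    rcases mem_mul.1 hQ with h | h
    · exact Or.inl h
    · by_cases h' : Q ∈ P m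
      · exact Or.inl h'
      · exact Or.inr ⟨h, h'⟩
  refine (prod_mono h1).trans ?_
  rw [Finset.prod_union Finset.disjoint_sdiff]
  exact mul_le_mul_of_nonneg_left (prod_mono Finset.sdiff_subset) (prod_pos _).le

/-- the radical is at most the norm -/
theorem rad_le {n : 𝓞 K} (hn : n ≠ 0) : rad n ≤ nrm n := by
  classical
  rw [rad_eq hn, nrm_eq]
  have hfin := P_finite hn
  have h1 : ∏ v ∈ hfin.toFinset.image (fun v => v.asIdeal), v ∣ Ideal.span {n} := by
    refine Finset.prod_primes_dvd _ ?_ ?_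
    · intro I hI
      obtain ⟨v, hv, rfl⟩ := Finset.mem_image.1 hI
      exact v.prime
    · intro I hI
      obtain ⟨v, hv, rfl⟩ := Finset.mem_image.1 hI
      rw [Set.Finite.mem_toFinset] at hv
      exact Ideal.dvd_span_singleton.2 hv
  rw [Finset.prod_image (fun v _ w _ h => HeightOneSpectrum.ext h)] at h1
  have h2 := Ideal.absNorm_dvd_absNorm_of_le (Ideal.le_of_dvd h1)
  rw [map_prod, Ideal.absNorm_span_singleton] at h2
  have h3 : 0 < (Algebra.norm ℤ n).natAbs := Int.natAbs_pos.2 (Algebra.norm_ne_zero_iff.2 hn)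
  have h4 := Nat.le_of_dvd h3 h2
  calc ∏ v ∈ hfin.toFinset, N v = ((∏ v ∈ hfin.toFinset, Ideal.absNorm v.asIdeal : ℕ) : ℝ) := by
        unfold N
        push_cast
        rfl
    _ ≤ (((Algebra.norm ℤ n).natAbs : ℕ) : ℝ) := by exact_mod_cast h4
    _ = |((Algebra.norm ℤ n : ℤ) : ℝ)| := by
        rw [Nat.cast_natAbs]
        push_cast
        rfl

theorem card_emb : Fintype.card (K →+* ℂ) = Module.finrank ℚ K := NumberField.Embeddings.card K ℂ

/-- two ways to write an inequality between height and radical -/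
theorem conv {ι : Type*} (p : ι → Prop) (h r : ι → ℝ) (hh : ∀ i, p i → 1 ≤ h i)
    (hr : ∀ i, p i → 1 ≤ r i) {κ : ℝ} (hκ : 0 < κ) :
    (∀ ε : ℝ, 0 < ε → ∃ C : ℝ, ∀ i, p i → h i ≤ C * r i ^ (κ + ε)) ↔
    (∀ ε : ℝ, 0 < ε → ∃ c : ℝ, 0 < c ∧ ∀ i, p i → c * h i ^ (1 / κ - ε) ≤ r i) := by
  constructor
  · intro hyp ε hε
    obtain ⟨C, hC⟩ := hyp (κ ^ 2 * ε) (by positivity)
    obtain ⟨D, hD⟩ : ∃ D, D = max C 1 := ⟨_, rfl⟩
    have hD1 : 1 ≤ D := by rw [hD]; exact le_max_right _ _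
    have hD0 : 0 < D := by linarith
    obtain ⟨q, hq⟩ : ∃ q, q = κ + κ ^ 2 * ε := ⟨_, rfl⟩
    have hq0 : 0 < q := by rw [hq]; positivity
    refine ⟨(1 / D) ^ (1 / q), by positivity, ?_⟩
    intro i hi
    have h1 := hh i hi
    have h2 := hr i hi
    have h0 : 0 < h i := by linarith
    have h3 : h i ≤ D * r i ^ q := by
      rw [hq]
      refine (hC i hi).trans ?_
      refine mul_le_mul_of_nonneg_right ?_ (by positivity)
      rw [hD]
      exact le_max_left _ _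
    have h4 : 1 / κ - ε ≤ 1 / q := by
      rw [hq, le_div_iff₀ (by positivity)]
      have : (1 / κ - ε) * (κ + κ ^ 2 * ε) = 1 - κ ^ 2 * ε ^ 2 := by
        field_simp
        ring
      rw [this]
      have : 0 ≤ κ ^ 2 * ε ^ 2 := by positivity
      linarith
    calc (1 / D) ^ (1 / q) * h i ^ (1 / κ - ε) ≤ (1 / D) ^ (1 / q) * h i ^ (1 / q) := by
          refine mul_le_mul_of_nonneg_left ?_ (by positivity)
          exact Real.rpow_le_rpow_of_exponent_le h1 h4
      _ = (1 / D * h i) ^ (1 / q) := by rw [Real.mul_rpow (by positivity) h0.le]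
      _ ≤ (r i ^ q) ^ (1 / q) := by
          refine Real.rpow_le_rpow (by positivity) ?_ (by positivity)
          rw [one_div_mul_eq_div, div_le_iff₀ hD0]
          linarith
      _ = r i := by
          rw [← Real.rpow_mul (by linarith), mul_one_div_cancel hq0.ne', Real.rpow_one]
  · intro hyp ε hε
    obtain ⟨q, hq⟩ : ∃ q, q = κ + ε := ⟨_, rfl⟩
    have hq0 : 0 < q := by rw [hq]; positivity
    have h5 : 1 / q < 1 / κ := by
      rw [hq]
      exact one_div_lt_one_div_of_lt hκ (by linarith)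
    obtain ⟨c, hc, hyp'⟩ := hyp (1 / κ - 1 / q) (by linarith)
    refine ⟨(1 / c) ^ q, ?_⟩
    intro i hi
    have h1 := hh i hi
    have h2 := hr i hi
    have h0 : 0 < h i := by linarith
    have h3 := hyp' i hi
    have h4 : 1 / κ - (1 / κ - 1 / q) = 1 / q := by ring
    rw [h4] at h3
    rw [← hq]
    calc h i = (h i ^ (1 / q)) ^ q := by
          rw [← Real.rpow_mul h0.le, one_div_mul_cancel hq0.ne', Real.rpow_one]
      _ ≤ (1 / c * r i) ^ q := by
          refine Real.rpow_le_rpow (by positivity) ?_ hq0.le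
          rw [one_div_mul_eq_div, le_div_iff₀ hc]
          linarith
      _ = (1 / c) ^ q * r i ^ q := Real.mul_rpow (by positivity) (by linarith)

end Pool.Agent.U624.Ico
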