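import Mathlib
import Pool.Agent.U624.Ico.Base

set_option autoImplicit false

/-!
# The icosahedral forms
-/

namespace Pool.Agent.U624.Ico

section Ring

variable {R : Type*} [CommRing R]

/-- the form of degree 12 -/
def f (u v : R) : R := u * v * (u ^ 10 + 11 * u ^ 5 * v ^ 5 - v ^ 10)

/-- the form of degree 20 -/
def H (u v : R) : R :=
  -(u ^ 20 + v ^ 20) + 228 * (u ^ 15 * v ^ 5 - u ^ 5 * v ^ 15) - 494 * u ^ 10 * v ^ 10

/-- the form of degree 30 -/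
def T (u v : R) : R :=
  (u ^ 30 + v ^ 30) + 522 * (u ^ 25 * v ^ 5 - u ^ 5 * v ^ 25) - 10005 * (u ^ 20 * v ^ 10 + u ^ 10 * v ^ 20)

theorem syzygy (u v : R) : T u v ^ 2 + H u v ^ 3 = 1728 * f u v ^ 5 := by
  unfold T f H
  ring

theorem T_symm (u v : R) : T v (-u) = T u v := by
  unfold T
  ring

theorem H_symm (u v : R) : H v (-u) = H u v := by
  unfold H
  ring

/-- first cofactor -/
def A (s t : R) : R := -2022161 * t ^ 5 + 1055557719 * s * t ^ 4 + 20237108822 * s ^ 2 * t ^ 3 +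
  103588896 * s ^ 3 * t ^ 2 + 20237705983 * s ^ 4 * t - 950431323 * s ^ 5

/-- second cofactor -/
def B (s t : R) : R := -2022161 * t ^ 3 - 461063031 * s * t ^ 2 - 1001301767 * s ^ 2 * t + 455818677 * s ^ 3

theorem bezout (u v : R) :
    A (u ^ 5) (v ^ 5) * H u v + B (u ^ 5) (v ^ 5) * T u v = 1406250000 * u ^ 45 := by
  unfold A B H T
  ring

theorem map_f {S : Type*} [CommRing S] (φ : R →+* S) (u v : R) : φ (f u v) = f (φ u) (φ v) := by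
  unfold f
  simp only [map_mul, map_add, map_sub, map_pow, map_ofNat]

theorem map_H {S : Type*} [CommRing S] (φ : R →+* S) (u v : R) : φ (H u v) = H (φ u) (φ v) := by
  unfold H
  simp only [map_mul, map_add, map_sub, map_neg, map_pow, map_ofNat]

theorem map_T {S : Type*} [CommRing S] (φ : R →+* S) (u v : R) : φ (T u v) = T (φ u) (φ v) := by
  unfold T
  simp only [map_mul, map_add, map_sub, map_pow, map_ofNat]

theorem gcd_dvd' {u v d : R} (h1 : d ∣ T u v) (h2 : d ∣ H u v) : d ∣ 30 ^ 10 * u ^ 45 := by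
  have h3 : d ∣ 1406250000 * u ^ 45 := by
    rw [← bezout]
    exact dvd_add (h2.mul_left _) (h1.mul_left _)
  have h4 : (30 ^ 10 * u ^ 45 : R) = 419904 * (1406250000 * u ^ 45) := by ring
  rw [h4]
  exact h3.mul_left _

theorem gcd_dvd {u v d : R} (huv : IsCoprime u v) (h1 : d ∣ T u v) (h2 : d ∣ H u v) :
    d ∣ 30 ^ 10 := by
  have h3 := gcd_dvd' h1 h2
  have h4 : d ∣ 30 ^ 10 * v ^ 45 := by
    rw [← T_symm] at h1
    rw [← H_symm] at h2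
    exact gcd_dvd' h1 h2
  obtain ⟨a, b, hab⟩ := huv.pow (m := 45) (n := 45)
  have h5 : (30 ^ 10 : R) = a * (30 ^ 10 * u ^ 45) + b * (30 ^ 10 * v ^ 45) := by
    calc (30 ^ 10 : R) = 30 ^ 10 * (a * u ^ 45 + b * v ^ 45) := by rw [hab, mul_one]
      _ = _ := by ring
  rw [h5]
  exact dvd_add (h3.mul_left _) (h4.mul_left _)

/-- the form of degree 9 which is left over -/
def Q (h u v : R) : R := (u - h * v) *
  ((u ^ 4 - 3 * u ^ 3 * v + 4 * u ^ 2 * v ^ 2 - 2 * u * v ^ 3 + v ^ 4) *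
  (u ^ 4 + 2 * u ^ 3 * v + 4 * u ^ 2 * v ^ 2 + 3 * u * v ^ 3 + v ^ 4))

/-- the factors over the golden section; `e = φ`, `h = 1 / φ` -/
theorem factor {e h : R} (he : e * h = 1) (heh : e = h + 1) (u v : R) :
    f u v = u * v * (u + e * v) * Q h u v := by
  have h1 : (u + e * v) * (u - h * v) = u ^ 2 + u * v - v ^ 2 := by
    linear_combination u * v * heh - v ^ 2 * he
  have h2 : f u v = u * v * ((u ^ 2 + u * v - v ^ 2) *
      ((u ^ 4 - 3 * u ^ 3 * v + 4 * u ^ 2 * v ^ 2 - 2 * u * v ^ 3 + v ^ 4) *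
      (u ^ 4 + 2 * u ^ 3 * v + 4 * u ^ 2 * v ^ 2 + 3 * u * v ^ 3 + v ^ 4))) := by
    unfold f
    ring
  rw [h2, ← h1]
  unfold Q
  ring

end Ring

/-- a form with integer coefficients is bounded -/
theorem norm_term {c s t : ℂ} {p : ℝ} {k : ℝ} (i j : ℕ) (hs : ‖s‖ ≤ p) (ht : ‖t‖ ≤ p) (hc : ‖c‖ ≤ k) :
    ‖c * s ^ i * t ^ j‖ ≤ k * p ^ (i + j) := by
  have hp : 0 ≤ p := (norm_nonneg s).trans hs
  have hk : 0 ≤ k := (norm_nonneg c).trans hc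
  rw [norm_mul, norm_mul, norm_pow, norm_pow, pow_add, mul_assoc]
  refine mul_le_mul hc ?_ (by positivity) hk
  exact mul_le_mul (pow_le_pow_left₀ (norm_nonneg _) hs i) (pow_le_pow_left₀ (norm_nonneg _) ht j)
    (by positivity) (by positivity)

theorem norm_A {s t : ℂ} {p : ℝ} (hs : ‖s‖ ≤ p) (ht : ‖t‖ ≤ p) : ‖A s t‖ ≤ 10 ^ 11 * p ^ 5 := by
  have hp : 0 ≤ p ^ 5 := pow_nonneg ((norm_nonneg s).trans hs) 5
  have e : A s t = (-2022161) * s ^ 0 * t ^ 5 + 1055557719 * s ^ 1 * t ^ 4 + 20237108822 * s ^ 2 * t ^ 3 +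
      103588896 * s ^ 3 * t ^ 2 + 20237705983 * s ^ 4 * t ^ 1 + (-950431323) * s ^ 5 * t ^ 0 := by
    unfold A
    ring
  have h0 := norm_term 0 5 hs ht (c := (-2022161)) (k := 2022161) (by simp)
  have h1 := norm_term 1 4 hs ht (c := 1055557719) (k := 1055557719) (by simp)
  have h2 := norm_term 2 3 hs ht (c := 20237108822) (k := 20237108822) (by simp)
  have h3 := norm_term 3 2 hs ht (c := 103588896) (k := 103588896) (by simp)
  have h4 := norm_term 4 1 hs ht (c := 20237705983) (k := 20237705983) (by simp)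
  have h5 := norm_term 5 0 hs ht (c := (-950431323)) (k := 950431323) (by simp)
  rw [e]
  have k1 := norm_add_le ((-2022161) * s ^ 0 * t ^ 5 + 1055557719 * s ^ 1 * t ^ 4 +
    20237108822 * s ^ 2 * t ^ 3 + 103588896 * s ^ 3 * t ^ 2 + 20237705983 * s ^ 4 * t ^ 1)
    ((-950431323) * s ^ 5 * t ^ 0)
  have k2 := norm_add_le ((-2022161) * s ^ 0 * t ^ 5 + 1055557719 * s ^ 1 * t ^ 4 +
    20237108822 * s ^ 2 * t ^ 3 + 103588896 * s ^ 3 * t ^ 2) (20237705983 * s ^ 4 * t ^ 1)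
  have k3 := norm_add_le ((-2022161) * s ^ 0 * t ^ 5 + 1055557719 * s ^ 1 * t ^ 4 +
    20237108822 * s ^ 2 * t ^ 3) (103588896 * s ^ 3 * t ^ 2)
  have k4 := norm_add_le ((-2022161) * s ^ 0 * t ^ 5 + 1055557719 * s ^ 1 * t ^ 4)
    (20237108822 * s ^ 2 * t ^ 3)
  have k5 := norm_add_le ((-2022161) * s ^ 0 * t ^ 5) (1055557719 * s ^ 1 * t ^ 4)
  norm_num at h0 h1 h2 h3 h4 h5 k1 k2 k3 k4 k5 ⊢
  linarith

theorem norm_B {s t : ℂ} {p : ℝ} (hs : ‖s‖ ≤ p) (ht : ‖t‖ ≤ p) : ‖B s t‖ ≤ 10 ^ 11 * p ^ 3 := by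
  have hp : 0 ≤ p ^ 3 := pow_nonneg ((norm_nonneg s).trans hs) 3
  have e : B s t = (-2022161) * s ^ 0 * t ^ 3 + (-461063031) * s ^ 1 * t ^ 2 +
      (-1001301767) * s ^ 2 * t ^ 1 + 455818677 * s ^ 3 * t ^ 0 := by
    unfold B
    ring
  have h0 := norm_term 0 3 hs ht (c := (-2022161)) (k := 2022161) (by simp)
  have h1 := norm_term 1 2 hs ht (c := (-461063031)) (k := 461063031) (by simp)
  have h2 := norm_term 2 1 hs ht (c := (-1001301767)) (k := 1001301767) (by simp)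
  have h3 := norm_term 3 0 hs ht (c := 455818677) (k := 455818677) (by simp)
  rw [e]
  have k1 := norm_add_le ((-2022161) * s ^ 0 * t ^ 3 + (-461063031) * s ^ 1 * t ^ 2 +
      (-1001301767) * s ^ 2 * t ^ 1) (455818677 * s ^ 3 * t ^ 0)
  have k2 := norm_add_le ((-2022161) * s ^ 0 * t ^ 3 + (-461063031) * s ^ 1 * t ^ 2)
    ((-1001301767) * s ^ 2 * t ^ 1)
  have k3 := norm_add_le ((-2022161) * s ^ 0 * t ^ 3) ((-461063031) * s ^ 1 * t ^ 2)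
  norm_num at h0 h1 h2 h3 k1 k2 k3 ⊢
  linarith

/-- both arguments are small if the two forms are -/
theorem small' {U V : ℂ} {W m : ℝ} (hW : 0 ≤ W) (hU : ‖U‖ = m) (hV : ‖V‖ ≤ m)
    (hT : ‖T U V‖ ≤ W ^ 30) (hH : ‖H U V‖ ≤ W ^ 20) : m ≤ 2 * W := by
  by_contra hc
  push Not at hc
  have hm0 : 0 < m := by linarith
  have h1 : ‖A (U ^ 5) (V ^ 5)‖ ≤ 10 ^ 11 * (m ^ 5) ^ 5 := by
    refine norm_A ?_ ?_
    · rw [norm_pow]
      exact pow_le_pow_left₀ (norm_nonneg _) hU.le 5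
    · rw [norm_pow]
      exact pow_le_pow_left₀ (norm_nonneg _) hV 5
  have h2 : ‖B (U ^ 5) (V ^ 5)‖ ≤ 10 ^ 11 * (m ^ 5) ^ 3 := by
    refine norm_B ?_ ?_
    · rw [norm_pow]
      exact pow_le_pow_left₀ (norm_nonneg _) hU.le 5
    · rw [norm_pow]
      exact pow_le_pow_left₀ (norm_nonneg _) hV 5
  have h3 : 1406250000 * m ^ 45 ≤ 10 ^ 11 * (m ^ 5) ^ 5 * W ^ 20 + 10 ^ 11 * (m ^ 5) ^ 3 * W ^ 30 := by
    calc 1406250000 * m ^ 45 = ‖(1406250000 : ℂ) * U ^ 45‖ := by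
          rw [norm_mul, norm_pow, hU]
          norm_num
      _ = ‖A (U ^ 5) (V ^ 5) * H U V + B (U ^ 5) (V ^ 5) * T U V‖ := by rw [bezout]
      _ ≤ ‖A (U ^ 5) (V ^ 5)‖ * ‖H U V‖ + ‖B (U ^ 5) (V ^ 5)‖ * ‖T U V‖ := by
          refine (norm_add_le _ _).trans ?_
          rw [norm_mul, norm_mul]
      _ ≤ _ := by
          refine add_le_add ?_ ?_
          · exact mul_le_mul h1 hH (norm_nonneg _) (by positivity)
          · exact mul_le_mul h2 hT (norm_nonneg _) (by positivity)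
  have h4 : (2 * W) ^ 20 ≤ m ^ 20 := pow_le_pow_left₀ (by linarith) hc.le 20
  have h5 : (2 * W) ^ 30 ≤ m ^ 30 := pow_le_pow_left₀ (by linarith) hc.le 30
  have h6 : (m ^ 5) ^ 5 * (2 * W) ^ 20 ≤ m ^ 45 := by
    calc (m ^ 5) ^ 5 * (2 * W) ^ 20 ≤ (m ^ 5) ^ 5 * m ^ 20 :=
          mul_le_mul_of_nonneg_left h4 (by positivity)
      _ = m ^ 45 := by ring
  have h7 : (m ^ 5) ^ 3 * (2 * W) ^ 30 ≤ m ^ 45 := by
    calc (m ^ 5) ^ 3 * (2 * W) ^ 30 ≤ (m ^ 5) ^ 3 * m ^ 30 :=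
          mul_le_mul_of_nonneg_left h5 (by positivity)
      _ = m ^ 45 := by ring
  have h8 : (m ^ 5) ^ 5 * (2 * W) ^ 20 = 2 ^ 20 * ((m ^ 5) ^ 5 * W ^ 20) := by ring
  have h9 : (m ^ 5) ^ 3 * (2 * W) ^ 30 = 2 ^ 30 * ((m ^ 5) ^ 3 * W ^ 30) := by ring
  rw [h8] at h6
  rw [h9] at h7
  have h10 : 0 < m ^ 45 := by positivity
  norm_num at h3 h6 h7
  nlinarith

/-- the larger of the two arguments -/
theorem small {U V : ℂ} {W : ℝ} (hW : 0 ≤ W) (hT : ‖T U V‖ ≤ W ^ 30) (hH : ‖H U V‖ ≤ W ^ 20) :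
    max ‖U‖ ‖V‖ ≤ 2 * W := by
  rcases le_total ‖V‖ ‖U‖ with h | h
  · rw [max_eq_left h]
    exact small' hW rfl h hT hH
  · rw [max_eq_right h]
    refine small' (V := -U) hW rfl (by rw [norm_neg]; exact h) ?_ ?_
    · rw [T_symm]; exact hT
    · rw [H_symm]; exact hH

theorem norm_Q {h u v : ℂ} {m : ℝ} (hu : ‖u‖ ≤ m) (hv : ‖v‖ ≤ m) (hh : ‖h‖ ≤ 2) :
    ‖Q h u v‖ ≤ 363 * m ^ 9 := by
  have hm : 0 ≤ m := (norm_nonneg u).trans hu
  have h1 : ‖u - h * v‖ ≤ 3 * m := by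
    refine (norm_sub_le _ _).trans ?_
    rw [norm_mul]
    have := mul_le_mul hh hv (norm_nonneg _) (by norm_num)
    linarith
  have h2 : ‖u ^ 4 - 3 * u ^ 3 * v + 4 * u ^ 2 * v ^ 2 - 2 * u * v ^ 3 + v ^ 4‖ ≤ 11 * m ^ 4 := by
    have e : u ^ 4 - 3 * u ^ 3 * v + 4 * u ^ 2 * v ^ 2 - 2 * u * v ^ 3 + v ^ 4 =
        1 * u ^ 4 * v ^ 0 + (-3) * u ^ 3 * v ^ 1 + 4 * u ^ 2 * v ^ 2 + (-2) * u ^ 1 * v ^ 3 +
        1 * u ^ 0 * v ^ 4 := by ring
    have h0 := norm_term 4 0 hu hv (c := 1) (k := 1) (by simp)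
    have h1 := norm_term 3 1 hu hv (c := (-3)) (k := 3) (by simp)
    have h2 := norm_term 2 2 hu hv (c := 4) (k := 4) (by simp)
    have h3 := norm_term 1 3 hu hv (c := (-2)) (k := 2) (by simp)
    have h4 := norm_term 0 4 hu hv (c := 1) (k := 1) (by simp)
    rw [e]
    refine (norm_add_le _ _).trans ?_
    refine (add_le_add_left (norm_add_le _ _) _).trans ?_
    refine (add_le_add_left (add_le_add_left (norm_add_le _ _) _) _).trans ?_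
    refine (add_le_add_left (add_le_add_left (add_le_add_left (norm_add_le _ _) _) _) _).trans ?_
    simp only [Nat.reduceAdd] at h0 h1 h2 h3 h4
    linarith
  have h3 : ‖u ^ 4 + 2 * u ^ 3 * v + 4 * u ^ 2 * v ^ 2 + 3 * u * v ^ 3 + v ^ 4‖ ≤ 11 * m ^ 4 := by
    have e : u ^ 4 + 2 * u ^ 3 * v + 4 * u ^ 2 * v ^ 2 + 3 * u * v ^ 3 + v ^ 4 =
        1 * u ^ 4 * v ^ 0 + 2 * u ^ 3 * v ^ 1 + 4 * u ^ 2 * v ^ 2 + 3 * u ^ 1 * v ^ 3 +
        1 * u ^ 0 * v ^ 4 := by ring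
    have h0 := norm_term 4 0 hu hv (c := 1) (k := 1) (by simp)
    have h1 := norm_term 3 1 hu hv (c := 2) (k := 2) (by simp)
    have h2 := norm_term 2 2 hu hv (c := 4) (k := 4) (by simp)
    have h3 := norm_term 1 3 hu hv (c := 3) (k := 3) (by simp)
    have h4 := norm_term 0 4 hu hv (c := 1) (k := 1) (by simp)
    rw [e]
    refine (norm_add_le _ _).trans ?_
    refine (add_le_add_left (norm_add_le _ _) _).trans ?_
    refine (add_le_add_left (add_le_add_left (norm_add_le _ _) _) _).trans ?_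
    refine (add_le_add_left (add_le_add_left (add_le_add_left (norm_add_le _ _) _) _) _).trans ?_
    simp only [Nat.reduceAdd] at h0 h1 h2 h3 h4
    linarith
  unfold Q
  rw [norm_mul, norm_mul]
  calc _ ≤ 3 * m * (11 * m ^ 4 * (11 * m ^ 4)) := by
        refine mul_le_mul h1 ?_ (by positivity) (by positivity)
        exact mul_le_mul h2 h3 (norm_nonneg _) (by positivity)
    _ = 363 * m ^ 9 := by ring

/-- two numbers with `f = 0` are of the same size -/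
theorem same_size {U V : ℂ} (h : U ^ 10 + 11 * U ^ 5 * V ^ 5 - V ^ 10 = 0) : ‖U‖ ≤ 2 * ‖V‖ := by
  by_contra hc
  push Not at hc
  have h1 : U ^ 10 = V ^ 10 - 11 * U ^ 5 * V ^ 5 := by linear_combination h
  have h2 : ‖U‖ ^ 10 ≤ ‖V‖ ^ 10 + 11 * ‖U‖ ^ 5 * ‖V‖ ^ 5 := by
    calc ‖U‖ ^ 10 = ‖V ^ 10 - 11 * U ^ 5 * V ^ 5‖ := by rw [← h1, norm_pow]
      _ ≤ _ := by
        refine (norm_sub_le _ _).trans ?_
        rw [norm_mul, norm_mul, norm_pow, norm_pow, norm_pow]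
        norm_num
  have hV := norm_nonneg V
  have hU : 0 < ‖U‖ := by linarith
  have h3 : (2 * ‖V‖) ^ 5 ≤ ‖U‖ ^ 5 := pow_le_pow_left₀ (by linarith) hc.le 5
  have h4 : (2 * ‖V‖) ^ 10 ≤ ‖U‖ ^ 10 := pow_le_pow_left₀ (by linarith) hc.le 10
  have h5 : ‖U‖ ^ 5 * (2 * ‖V‖) ^ 5 ≤ ‖U‖ ^ 10 := by
    calc ‖U‖ ^ 5 * (2 * ‖V‖) ^ 5 ≤ ‖U‖ ^ 5 * ‖U‖ ^ 5 := mul_le_mul_of_nonneg_left h3 (by positivity)
      _ = ‖U‖ ^ 10 := by ring
  have h6 : ‖U‖ ^ 5 * (2 * ‖V‖) ^ 5 = 32 * (‖U‖ ^ 5 * ‖V‖ ^ 5) := by ring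
  have h7 : (2 * ‖V‖) ^ 10 = 1024 * ‖V‖ ^ 10 := by ring
  rw [h6] at h5
  rw [h7] at h4
  have h8 : 0 < ‖U‖ ^ 10 := by positivity
  nlinarith

end Pool.Agent.U624.Ico
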