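import Mathlib
import Pool.Agent.U624.Ico.Alg

set_option autoImplicit false
set_option linter.unusedSectionVars false

/-!
# The implications
-/

namespace Pool.Agent.U624.Ico

open NumberField IsDedekindDomain

variable {K : Type} [Field K] [NumberField K]

/-- the height of a triple -/
noncomputable def ht3 (a b c : 𝓞 K) : ℝ :=
  ∏ φ : K →+* ℂ, max ‖φ (a : K)‖ (max ‖φ (b : K)‖ ‖φ (c : K)‖)

/-- the height of a solution -/
noncomputable def ht (x y : 𝓞 K) : ℝ := ∏ φ : K →+* ℂ, max (‖φ (x : K)‖ ^ 2) (‖φ (y : K)‖ ^ 3)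

/-- a solution of the icosahedral equation -/
structure Sol (x y z : 𝓞 K) : Prop where
  eq : x ^ 2 + y ^ 3 = 1728 * z ^ 5
  z0 : z ≠ 0
  gcd : ∀ d : 𝓞 K, d ∣ x → d ∣ y → d ∣ 30 ^ 10

theorem sol_forms {u v : 𝓞 K} (h : IsCoprime u v) (hf : f u v ≠ 0) :
    Sol (T u v) (H u v) (f u v) := ⟨syzygy u v, hf, fun _ h1 h2 => gcd_dvd h h1 h2⟩

theorem split [IsPrincipalIdealRing (𝓞 K)] {x y : 𝓞 K} (h : x ≠ 0 ∨ y ≠ 0) :
    ∃ g x' y' : 𝓞 K, g ≠ 0 ∧ g * x' = x ∧ g * y' = y ∧ IsCoprime x' y' := by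
  obtain ⟨a, b, hab⟩ := IsBezout.gcd_eq_sum x y
  obtain ⟨x', hx⟩ := IsBezout.gcd_dvd_left x y
  obtain ⟨y', hy⟩ := IsBezout.gcd_dvd_right x y
  obtain ⟨g, hg⟩ : ∃ g, g = IsBezout.gcd x y := ⟨_, rfl⟩
  rw [← hg] at hab hx hy
  have hg0 : g ≠ 0 := by
    rintro rfl
    rw [zero_mul] at hx hy
    rcases h with h | h
    · exact h hx
    · exact h hy
  refine ⟨g, x', y', hg0, hx.symm, hy.symm, a, b, ?_⟩
  apply mul_left_cancel₀ hg0
  rw [mul_one]
  calc g * (a * x' + b * y') = a * (g * x') + b * (g * y') := by ring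
    _ = g := by rw [← hx, ← hy, hab]

theorem mx_nonneg (φ : K →+* ℂ) (x y : 𝓞 K) : 0 ≤ max (‖φ (x : K)‖ ^ 2) (‖φ (y : K)‖ ^ 3) :=
  le_max_of_le_left (by positivity)

theorem nrm_sq_le (x y : 𝓞 K) : nrm x ^ 2 ≤ ht x y := by
  unfold nrm ht
  rw [← Finset.prod_pow]
  exact Finset.prod_le_prod (fun _ _ => by positivity) fun _ _ => le_max_left _ _

theorem nrm_cb_le (x y : 𝓞 K) : nrm y ^ 3 ≤ ht x y := by
  unfold nrm ht
  rw [← Finset.prod_pow]
  exact Finset.prod_le_prod (fun _ _ => by positivity) fun _ _ => le_max_right _ _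

theorem ne_num {n : ℕ} (hn : n ≠ 0) : (n : 𝓞 K) ≠ 0 := Nat.cast_ne_zero.2 hn

theorem one_le_ht {x y z : 𝓞 K} (h : x ^ 2 + y ^ 3 = 1728 * z ^ 5) (hz : z ≠ 0) : 1 ≤ ht x y := by
  by_cases hx : x = 0
  · have hy : y ≠ 0 := by
      rintro rfl
      rw [hx] at h
      have h1 : (1728 : 𝓞 K) * z ^ 5 = 0 := by
        rw [← h]
        ring
      rcases mul_eq_zero.1 h1 with h2 | h2
      · exact ne_num (K := K) (n := 1728) (by norm_num) (by exact_mod_cast h2)
      · exact hz (pow_eq_zero_iff (by norm_num) |>.1 h2)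
    exact (one_le_pow₀ (one_le_nrm hy)).trans (nrm_cb_le x y)
  · exact (one_le_pow₀ (one_le_nrm hx)).trans (nrm_sq_le x y)

theorem nrm_le_ht3 (a b c : 𝓞 K) : nrm a ≤ ht3 a b c :=
  Finset.prod_le_prod (fun _ _ => norm_nonneg _) fun _ _ => le_max_left _ _

theorem one_le_ht3 {a b c : 𝓞 K} (h : a ≠ 0) : 1 ≤ ht3 a b c := (one_le_nrm h).trans (nrm_le_ht3 a b c)

theorem golden_le {e h : 𝓞 K} (he : e * h = 1) (heh : e = h + 1) (φ : K →+* ℂ) :
    ‖φ (e : K)‖ ≤ 2 ∧ ‖φ (h : K)‖ ≤ 2 := by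
  have h1 : φ (e : K) * φ (h : K) = 1 := by
    rw [← map_mul]
    have : (e : K) * (h : K) = ((e * h : 𝓞 K) : K) := rfl
    rw [this, he]
    simp
  have h2 : φ (e : K) = φ (h : K) + 1 := by
    rw [heh]
    have : ((h + 1 : 𝓞 K) : K) = (h : K) + 1 := rfl
    rw [this, map_add, map_one]
  constructor
  · have h3 : φ (e : K) ^ 2 = 1 + φ (e : K) := by
      have : φ (h : K) = φ (e : K) - 1 := by rw [h2]; ring
      rw [this] at h1
      linear_combination h1
    have h4 : ‖φ (e : K)‖ ^ 2 ≤ 1 + ‖φ (e : K)‖ := by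
      rw [← norm_pow, h3]
      refine (norm_add_le _ _).trans ?_
      rw [norm_one]
    by_contra hc
    push Not at hc
    nlinarith
  · have h3 : φ (h : K) ^ 2 = 1 - φ (h : K) := by
      rw [h2] at h1
      linear_combination h1
    have h4 : ‖φ (h : K)‖ ^ 2 ≤ 1 + ‖φ (h : K)‖ := by
      rw [← norm_pow, h3]
      refine (norm_sub_le _ _).trans ?_
      rw [norm_one]
    by_contra hc
    push Not at hc
    nlinarith

theorem coe_f (φ : K →+* ℂ) (u v : 𝓞 K) : φ ((f u v : 𝓞 K) : K) = f (φ (u : K)) (φ (v : K)) :=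
  map_f (φ.comp (algebraMap (𝓞 K) K)) u v

theorem coe_T (φ : K →+* ℂ) (u v : 𝓞 K) : φ ((T u v : 𝓞 K) : K) = T (φ (u : K)) (φ (v : K)) :=
  map_T (φ.comp (algebraMap (𝓞 K) K)) u v

theorem coe_H (φ : K →+* ℂ) (u v : 𝓞 K) : φ ((H u v : 𝓞 K) : K) = H (φ (u : K)) (φ (v : K)) :=
  map_H (φ.comp (algebraMap (𝓞 K) K)) u v

theorem coe_Q (φ : K →+* ℂ) (h u v : 𝓞 K) : φ ((Q h u v : 𝓞 K) : K) =
    Q (φ (h : K)) (φ (u : K)) (φ (v : K)) := by
  show (φ.comp (algebraMap (𝓞 K) K)) (Q h u v) = _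
  unfold Q
  simp only [map_mul, map_add, map_sub, map_pow, map_ofNat]
  rfl

/-- the height of a triple in terms of the forms -/
theorem ht3_le {e h : 𝓞 K} (he : e * h = 1) (heh : e = h + 1) {a b c : 𝓞 K} (habc : a + b + c = 0) :
    ht3 a b c ≤ 6 ^ Fintype.card (K →+* ℂ) * ht (T a (h * b)) (H a (h * b)) ^ (1 / 60 : ℝ) := by
  have key : ∀ φ : K →+* ℂ, max ‖φ (a : K)‖ (max ‖φ (b : K)‖ ‖φ (c : K)‖) ≤
      6 * (max (‖φ ((T a (h * b) : 𝓞 K) : K)‖ ^ 2) (‖φ ((H a (h * b) : 𝓞 K) : K)‖ ^ 3)) ^ (1 / 60 : ℝ) := by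
    intro φ
    obtain ⟨W, hW⟩ : ∃ W, W = (max (‖φ ((T a (h * b) : 𝓞 K) : K)‖ ^ 2)
      (‖φ ((H a (h * b) : 𝓞 K) : K)‖ ^ 3)) ^ (1 / 60 : ℝ) := ⟨_, rfl⟩
    have hm0 := mx_nonneg φ (T a (h * b)) (H a (h * b))
    have hW0 : 0 ≤ W := by rw [hW]; exact Real.rpow_nonneg hm0 _
    have hW60 : W ^ 60 = max (‖φ ((T a (h * b) : 𝓞 K) : K)‖ ^ 2)
      (‖φ ((H a (h * b) : 𝓞 K) : K)‖ ^ 3) := by
      rw [hW, ← Real.rpow_natCast, ← Real.rpow_mul hm0]
      norm_num
    have h1 : ‖φ ((T a (h * b) : 𝓞 K) : K)‖ ≤ W ^ 30 := by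
      refine le_of_pow_le_pow_left₀ (n := 2) (by norm_num) (by positivity) ?_
      calc _ ≤ W ^ 60 := by rw [hW60]; exact le_max_left _ _
        _ = (W ^ 30) ^ 2 := by ring
    have h2 : ‖φ ((H a (h * b) : 𝓞 K) : K)‖ ≤ W ^ 20 := by
      refine le_of_pow_le_pow_left₀ (n := 3) (by norm_num) (by positivity) ?_
      calc _ ≤ W ^ 60 := by rw [hW60]; exact le_max_right _ _
        _ = (W ^ 20) ^ 3 := by ring
    rw [coe_T] at h1
    rw [coe_H] at h2
    have h3 := small hW0 h1 h2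
    obtain ⟨h4, h5⟩ := max_le_iff.1 h3
    have hb : (b : K) = (e : K) * ((h * b : 𝓞 K) : K) := by
      have : (b : 𝓞 K) = e * (h * b) := by rw [← mul_assoc, he, one_mul]
      calc (b : K) = ((e * (h * b) : 𝓞 K) : K) := by rw [← this]
        _ = _ := rfl
    have h6 : ‖φ (b : K)‖ ≤ 4 * W := by
      rw [hb, map_mul, norm_mul]
      calc _ ≤ 2 * (2 * W) := mul_le_mul (golden_le he heh φ).1 h5 (norm_nonneg _) (by norm_num)
        _ = 4 * W := by ring
    have hc : (c : K) = -((a : K) + (b : K)) := by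
      have : c = -(a + b) := by linear_combination habc
      rw [this]
      rfl
    have h7 : ‖φ (c : K)‖ ≤ 6 * W := by
      rw [hc, map_neg, norm_neg, map_add]
      refine (norm_add_le _ _).trans ?_
      linarith
    rw [← hW]
    exact max_le (by linarith) (max_le (by linarith) h7)
  unfold ht3
  calc _ ≤ ∏ φ : K →+* ℂ, (6 * (max (‖φ ((T a (h * b) : 𝓞 K) : K)‖ ^ 2)
        (‖φ ((H a (h * b) : 𝓞 K) : K)‖ ^ 3)) ^ (1 / 60 : ℝ)) :=
        Finset.prod_le_prod (fun _ _ => le_max_of_le_left (norm_nonneg _)) fun φ _ => key φ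
    _ = _ := by
        rw [Finset.prod_mul_distrib, Finset.prod_const, Finset.card_univ,
          Real.finsetProd_rpow _ _ (fun φ _ => mx_nonneg φ _ _)]
        rfl

/-- the norm of the form which is left over -/
theorem nrm_Q_le {e h : 𝓞 K} (he : e * h = 1) (heh : e = h + 1) {a b c : 𝓞 K} :
    nrm (Q h a (h * b)) ≤ 185856 ^ Fintype.card (K →+* ℂ) * ht3 a b c ^ 9 := by
  have key : ∀ φ : K →+* ℂ, ‖φ ((Q h a (h * b) : 𝓞 K) : K)‖ ≤
      185856 * (max ‖φ (a : K)‖ (max ‖φ (b : K)‖ ‖φ (c : K)‖)) ^ 9 := by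
    intro φ
    obtain ⟨m, hm⟩ : ∃ m, m = max ‖φ (a : K)‖ (max ‖φ (b : K)‖ ‖φ (c : K)‖) := ⟨_, rfl⟩
    have ha : ‖φ (a : K)‖ ≤ m := by rw [hm]; exact le_max_left _ _
    have hb : ‖φ (b : K)‖ ≤ m := by rw [hm]; exact le_max_of_le_right (le_max_left _ _)
    have hm0 : 0 ≤ m := (norm_nonneg _).trans ha
    have hh := (golden_le he heh φ).2
    have hv : ‖φ ((h * b : 𝓞 K) : K)‖ ≤ 2 * m := by
      have : ((h * b : 𝓞 K) : K) = (h : K) * (b : K) := rfl
      rw [this, map_mul, norm_mul]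
      exact mul_le_mul hh hb (norm_nonneg _) (by norm_num)
    rw [coe_Q, ← hm]
    have h1 := norm_Q (m := 2 * m) (by linarith) hv hh (u := φ (a : K))
    calc _ ≤ 363 * (2 * m) ^ 9 := h1
      _ = 185856 * m ^ 9 := by ring
  unfold nrm ht3
  calc _ ≤ ∏ φ : K →+* ℂ, (185856 * (max ‖φ (a : K)‖ (max ‖φ (b : K)‖ ‖φ (c : K)‖)) ^ 9) :=
        Finset.prod_le_prod (fun _ _ => norm_nonneg _) fun φ _ => key φ
    _ = _ := by
        rw [Finset.prod_mul_distrib, Finset.prod_const, Finset.card_univ, Finset.prod_pow]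

/-- the inequality for the forms implies the abc inequality -/
theorem abc_of_forms {e h : 𝓞 K} (he : e * h = 1) (heh : e = h + 1)
    (hyp : ∀ ε : ℝ, 0 < ε → ∃ c : ℝ, 0 < c ∧ ∀ u v : 𝓞 K, IsCoprime u v → f u v ≠ 0 →
      c * ht (T u v) (H u v) ^ (1 / 6 - ε) ≤ rad (f u v)) :
    ∀ ε : ℝ, 0 < ε → ∃ c : ℝ, 0 < c ∧ ∀ a b c' : 𝓞 K, a + b + c' = 0 → a * b * c' ≠ 0 →
      IsCoprime a b → c * ht3 a b c' ^ (1 - ε) ≤ rad (a * b * c') := by
  intro ε hε
  obtain ⟨δ, hδ⟩ : ∃ δ, δ = min ε 1 := ⟨_, rfl⟩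
  have hδ0 : 0 < δ := by rw [hδ]; exact lt_min hε one_pos
  have hδ1 : δ ≤ 1 := by rw [hδ]; exact min_le_right _ _
  have hδε : δ ≤ ε := by rw [hδ]; exact min_le_left _ _
  obtain ⟨c, hc, h1⟩ := hyp (δ / 60) (by linarith)
  obtain ⟨n, hn⟩ : ∃ n, n = Fintype.card (K →+* ℂ) := ⟨_, rfl⟩
  refine ⟨min (1 / 4 ^ n) (c / 185856 ^ n * (1 / 6 ^ n) ^ (10 - δ)), by positivity, ?_⟩
  intro a b c' habc hne hco
  have ha : a ≠ 0 := fun h0 => hne (by rw [h0]; ring)
  have hb : b ≠ 0 := fun h0 => hne (by rw [h0]; ring)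
  have hc' : c' ≠ 0 := fun h0 => hne (by rw [h0]; ring)
  have hh0 : h ≠ 0 := by
    rintro rfl
    rw [mul_zero] at he
    exact zero_ne_one he
  have hhu : IsUnit h := IsUnit.of_mul_eq_one e (by rw [mul_comm, he])
  have hs1 := one_le_ht3 (b := b) (c := c') ha
  obtain ⟨M, hM⟩ : ∃ M, M = ht3 a b c' := ⟨_, rfl⟩
  rw [← hM] at hs1
  have hM0 : 0 < M := by linarith
  have h2 : M ^ (1 - ε) ≤ M ^ (1 - δ) := Real.rpow_le_rpow_of_exponent_le hs1 (by linarith)
  have hR := one_le_rad hne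
  rw [← hM]
  have hco' : IsCoprime a (h * b) := by
    refine IsCoprime.mul_right ?_ hco
    exact ⟨0, e, by rw [zero_mul, zero_add, he]⟩
  by_cases hf : f a (h * b) = 0
  · -- both numbers are units
    have h3 : a ^ 10 + 11 * a ^ 5 * (h * b) ^ 5 - (h * b) ^ 10 = 0 := by
      unfold f at hf
      rcases mul_eq_zero.1 hf with h4 | h4
      · exact absurd h4 (mul_ne_zero ha (mul_ne_zero hh0 hb))
      · exact h4
    have h4 : IsUnit (h * b) := by
      refine (hco'.pow_left (m := 10)).isUnit_of_dvd' ?_ dvd_rfl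
      have : a ^ 10 = (h * b) * ((h * b) ^ 9 - 11 * a ^ 5 * (h * b) ^ 4) := by
        linear_combination h3
      rw [this]
      exact dvd_mul_right _ _
    have h5 : M ≤ 4 ^ n := by
      have key : ∀ φ : K →+* ℂ, max ‖φ (a : K)‖ (max ‖φ (b : K)‖ ‖φ (c' : K)‖) ≤
          4 * ‖φ ((h * b : 𝓞 K) : K)‖ := by
        intro φ
        have h6 : ‖φ (a : K)‖ ≤ 2 * ‖φ ((h * b : 𝓞 K) : K)‖ := by
          apply same_size
          have h7 := congrArg (φ.comp (algebraMap (𝓞 K) K)) h3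
          simp only [map_mul, map_add, map_sub, map_pow, map_ofNat, map_zero] at h7
          have h8 : φ ((h * b : 𝓞 K) : K) = (φ.comp (algebraMap (𝓞 K) K)) h *
            (φ.comp (algebraMap (𝓞 K) K)) b := map_mul (φ.comp (algebraMap (𝓞 K) K)) h b
          rw [h8]
          exact h7
        have hb2 : (b : K) = (e : K) * ((h * b : 𝓞 K) : K) := by
          have : (b : 𝓞 K) = e * (h * b) := by rw [← mul_assoc, he, one_mul]
          calc (b : K) = ((e * (h * b) : 𝓞 K) : K) := by rw [← this]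
            _ = _ := rfl
        have h9 : ‖φ (b : K)‖ ≤ 2 * ‖φ ((h * b : 𝓞 K) : K)‖ := by
          rw [hb2, map_mul, norm_mul]
          exact mul_le_mul_of_nonneg_right (golden_le he heh φ).1 (norm_nonneg _)
        have hc2 : (c' : K) = -((a : K) + (b : K)) := by
          have : c' = -(a + b) := by linear_combination habc
          rw [this]
          rfl
        have h10 : ‖φ (c' : K)‖ ≤ 4 * ‖φ ((h * b : 𝓞 K) : K)‖ := by
          rw [hc2, map_neg, norm_neg, map_add]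
          refine (norm_add_le _ _).trans ?_
          linarith
        have h11 := norm_nonneg (φ ((h * b : 𝓞 K) : K))
        exact max_le (by linarith) (max_le (by linarith) h10)
      rw [hM]
      unfold ht3
      calc _ ≤ ∏ φ : K →+* ℂ, (4 * ‖φ ((h * b : 𝓞 K) : K)‖) :=
            Finset.prod_le_prod (fun _ _ => le_max_of_le_left (norm_nonneg _)) fun φ _ => key φ
        _ = 4 ^ n * nrm (h * b) := by
            rw [Finset.prod_mul_distrib, Finset.prod_const, Finset.card_univ, hn]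
            rfl
        _ = 4 ^ n := by rw [nrm_unit h4, mul_one]
    have h7 : M ^ (1 - δ) ≤ M := by
      conv_rhs => rw [← Real.rpow_one M]
      exact Real.rpow_le_rpow_of_exponent_le hs1 (by linarith)
    calc min (1 / 4 ^ n) (c / 185856 ^ n * (1 / 6 ^ n) ^ (10 - δ)) * M ^ (1 - ε)
        ≤ 1 / 4 ^ n * 4 ^ n := by
          refine mul_le_mul (min_le_left _ _) ((h2.trans h7).trans h5) (by positivity) (by positivity)
      _ = 1 := one_div_mul_cancel (by positivity)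
      _ ≤ _ := hR
  · have h3 := h1 a (h * b) hco' hf
    obtain ⟨B, hB⟩ : ∃ B, B = ht (T a (h * b)) (H a (h * b)) := ⟨_, rfl⟩
    rw [← hB] at h3
    have hB1 : 1 ≤ B := by
      rw [hB]
      exact one_le_ht (syzygy _ _) hf
    have hB0 : 0 < B := by linarith
    have h4 : M ≤ 6 ^ n * B ^ (1 / 60 : ℝ) := by
      rw [hM, hn, hB]
      exact ht3_le he heh habc
    have h5 : (M * (1 / 6 ^ n)) ^ (10 - δ) ≤ B ^ (1 / 6 - δ / 60) := by
      calc (M * (1 / 6 ^ n)) ^ (10 - δ) ≤ (B ^ (1 / 60 : ℝ)) ^ (10 - δ) := by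
            refine Real.rpow_le_rpow (by positivity) ?_ (by linarith)
            rw [mul_one_div, div_le_iff₀ (by positivity)]
            linarith
        _ = B ^ (1 / 6 - δ / 60) := by
            rw [← Real.rpow_mul hB0.le]
            congr 1
            ring
    have hfac : f a (h * b) = (a * b * c') * (-(h * Q h a (h * b))) := by
      rw [factor he heh]
      have h6 : e * (h * b) = b := by rw [← mul_assoc, he, one_mul]
      rw [h6]
      have h7 : a + b = -c' := by linear_combination habc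
      rw [h7]
      ring
    have hp0 : (-(h * Q h a (h * b)) : 𝓞 K) ≠ 0 := by
      intro h0
      apply hf
      rw [hfac, h0, mul_zero]
    have h6 : rad (f a (h * b)) ≤ rad (a * b * c') * (185856 ^ n * M ^ 9) := by
      rw [hfac]
      refine (rad_mul_le hne hp0).trans ?_
      refine mul_le_mul_of_nonneg_left ?_ (by linarith)
      refine (rad_le hp0).trans ?_
      have h7 : (-(h * Q h a (h * b)) : 𝓞 K) = (-h) * Q h a (h * b) := by ring
      rw [h7, nrm_mul, nrm_unit hhu.neg, one_mul, hM, hn]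
      exact nrm_Q_le he heh
    have h7 : c * (M * (1 / 6 ^ n)) ^ (10 - δ) ≤ rad (a * b * c') * (185856 ^ n * M ^ 9) :=
      ((mul_le_mul_of_nonneg_left h5 hc.le).trans h3).trans h6
    have h8 : (M * (1 / 6 ^ n)) ^ (10 - δ) = M ^ (1 - δ) * M ^ 9 * (1 / 6 ^ n) ^ (10 - δ) := by
      rw [Real.mul_rpow hM0.le (by positivity)]
      congr 1
      rw [← Real.rpow_natCast, ← Real.rpow_add hM0]
      congr 1
      push_cast
      ring
    rw [h8] at h7
    have h9 : c / 185856 ^ n * (1 / 6 ^ n) ^ (10 - δ) * M ^ (1 - δ) ≤ rad (a * b * c') := by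
      have hM9 : 0 < 185856 ^ n * M ^ 9 := by positivity
      refine le_of_mul_le_mul_right ?_ hM9
      refine le_trans (le_of_eq ?_) h7
      field_simp
    refine le_trans ?_ h9
    exact mul_le_mul (min_le_right _ _) h2 (by positivity) (by positivity)

/-- the abc inequality for the points of the equation implies the bound for the radical of `z` -/
theorem rad_of_points [IsPrincipalIdealRing (𝓞 K)]
    (hyp : ∀ ε : ℝ, 0 < ε → ∃ c : ℝ, 0 < c ∧ ∀ a b c' x y z g : 𝓞 K, Sol x y z →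
      g * a = x ^ 2 → g * b = y ^ 3 → a + b + c' = 0 → a * b * c' ≠ 0 →
      IsCoprime a b → c * ht3 a b c' ^ (1 - ε) ≤ rad (a * b * c')) :
    ∀ ε : ℝ, 0 < ε → ∃ c : ℝ, 0 < c ∧ ∀ x y z : 𝓞 K, Sol x y z →
      c * ht x y ^ (1 / 6 - ε) ≤ rad z := by
  intro ε hε
  obtain ⟨δ, hδ⟩ : ∃ δ, δ = min ε 1 := ⟨_, rfl⟩
  have hδ0 : 0 < δ := by rw [hδ]; exact lt_min hε one_pos
  have hδ1 : δ ≤ 1 := by rw [hδ]; exact min_le_right _ _
  have hδε : δ ≤ ε := by rw [hδ]; exact min_le_left _ _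
  obtain ⟨c, hc, h1⟩ := hyp δ hδ0
  have hne30 : (30 : 𝓞 K) ^ 10 ≠ 0 := by
    refine pow_ne_zero 10 ?_
    have := ne_num (K := K) (n := 30) (by norm_num)
    exact_mod_cast this
  have hne1728 : (1728 : 𝓞 K) ≠ 0 := by
    have := ne_num (K := K) (n := 1728) (by norm_num)
    exact_mod_cast this
  obtain ⟨G, hG⟩ : ∃ G, G = nrm ((30 : 𝓞 K) ^ 10) := ⟨_, rfl⟩
  have hG1 : 1 ≤ G := by rw [hG]; exact one_le_nrm hne30
  have hG0 : 0 < G := by linarith
  obtain ⟨G', hG'⟩ : ∃ G', G' = nrm (1728 : 𝓞 K) := ⟨_, rfl⟩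
  have hG'1 : 1 ≤ G' := by rw [hG']; exact one_le_nrm hne1728
  have hG'0 : 0 < G' := by linarith
  refine ⟨min (1 / G ^ 3) (c / G' * (1 / G ^ 3) ^ (1 - δ)), by positivity, ?_⟩
  intro x y z hS
  obtain ⟨B, hB⟩ : ∃ B, B = ht x y := ⟨_, rfl⟩
  have hB1 : 1 ≤ B := by
    rw [hB]
    exact one_le_ht hS.eq hS.z0
  have hB0 : 0 < B := by linarith
  have hR := one_le_rad hS.z0
  rw [← hB]
  have hcase : (x = 0 ∨ y = 0) → B ≤ G ^ 3 := by
    intro h0
    rw [hB]
    rcases h0 with h0 | h0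
    · have h2 := hS.gcd y (by rw [h0]; exact dvd_zero y) dvd_rfl
      have h3 := nrm_le_of_dvd h2 hne30
      rw [← hG] at h3
      have h4 : ht x y = nrm y ^ 3 := by
        unfold ht nrm
        rw [← Finset.prod_pow]
        refine Finset.prod_congr rfl fun φ _ => ?_
        rw [h0]
        have : ((0 : 𝓞 K) : K) = 0 := rfl
        rw [this, map_zero, norm_zero]
        exact max_eq_right (le_of_eq_of_le (zero_pow two_ne_zero) (by positivity))
      rw [h4]
      exact pow_le_pow_left₀ (nrm_nonneg _) h3 3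
    · have h2 := hS.gcd x dvd_rfl (by rw [h0]; exact dvd_zero x)
      have h3 := nrm_le_of_dvd h2 hne30
      rw [← hG] at h3
      have h4 : ht x y = nrm x ^ 2 := by
        unfold ht nrm
        rw [← Finset.prod_pow]
        refine Finset.prod_congr rfl fun φ _ => ?_
        rw [h0]
        have : ((0 : 𝓞 K) : K) = 0 := rfl
        rw [this, map_zero, norm_zero]
        exact max_eq_left (le_of_eq_of_le (zero_pow three_ne_zero) (by positivity))
      rw [h4]
      calc nrm x ^ 2 ≤ G ^ 2 := pow_le_pow_left₀ (nrm_nonneg _) h3 2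
        _ ≤ G ^ 3 := pow_le_pow_right₀ hG1 (by norm_num)
  have hexp : B ^ (1 / 6 - ε) ≤ B ^ (1 / 6 - δ) := Real.rpow_le_rpow_of_exponent_le hB1 (by linarith)
  by_cases h0 : x = 0 ∨ y = 0
  · have h2 : B ^ (1 / 6 - ε) ≤ B := by
      conv_rhs => rw [← Real.rpow_one B]
      exact Real.rpow_le_rpow_of_exponent_le hB1 (by linarith)
    calc min (1 / G ^ 3) (c / G' * (1 / G ^ 3) ^ (1 - δ)) * B ^ (1 / 6 - ε)
        ≤ 1 / G ^ 3 * G ^ 3 := by
          refine mul_le_mul (min_le_left _ _) (h2.trans (hcase h0)) (by positivity) (by positivity)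
      _ = 1 := one_div_mul_cancel (by positivity)
      _ ≤ _ := hR
  · push Not at h0
    obtain ⟨hx0, hy0⟩ := h0
    obtain ⟨g, a, b, hg0, hga, hgb, hco⟩ := split (x := x ^ 2) (y := y ^ 3)
      (Or.inl (pow_ne_zero 2 hx0))
    obtain ⟨c', hc'⟩ : ∃ c', c' = -(a + b) := ⟨_, rfl⟩
    have hsum : a + b + c' = 0 := by rw [hc']; ring
    have hgc : g * c' = -(1728 * z ^ 5) := by
      rw [hc', ← hS.eq, ← hga, ← hgb]
      ring
    have ha0 : a ≠ 0 := by
      rintro rfl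
      rw [mul_zero] at hga
      exact pow_ne_zero 2 hx0 hga.symm
    have hb0 : b ≠ 0 := by
      rintro rfl
      rw [mul_zero] at hgb
      exact pow_ne_zero 3 hy0 hgb.symm
    have hc0 : c' ≠ 0 := by
      intro h2
      rw [h2, mul_zero] at hgc
      have h3 : (1728 : 𝓞 K) * z ^ 5 ≠ 0 := mul_ne_zero hne1728 (pow_ne_zero 5 hS.z0)
      exact h3 (by linear_combination hgc)
    have hne : a * b * c' ≠ 0 := mul_ne_zero (mul_ne_zero ha0 hb0) hc0
    have h2 := h1 a b c' x y z g hS hga hgb hsum hne hco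
    -- the common factor is bounded
    obtain ⟨d, x', y', hd0, hdx, hdy, hco'⟩ := split (x := x) (y := y) (Or.inl hx0)
    have h3 : g ∣ d ^ 3 := by
      have h4 : g ∣ d ^ 3 * x' ^ 2 := by
        have : d ^ 3 * x' ^ 2 = g * (a * d) := by
          calc d ^ 3 * x' ^ 2 = d * (d * x') ^ 2 := by ring
            _ = d * (g * a) := by rw [hdx, hga]
            _ = g * (a * d) := by ring
        rw [this]
        exact dvd_mul_right _ _
      have h5 : g ∣ d ^ 3 * y' ^ 3 := by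
        have : d ^ 3 * y' ^ 3 = g * b := by
          calc d ^ 3 * y' ^ 3 = (d * y') ^ 3 := by ring
            _ = g * b := by rw [hdy, hgb]
        rw [this]
        exact dvd_mul_right _ _
      obtain ⟨r, s, hrs⟩ := hco'.pow (m := 2) (n := 3)
      have : d ^ 3 = r * (d ^ 3 * x' ^ 2) + s * (d ^ 3 * y' ^ 3) := by
        calc d ^ 3 = d ^ 3 * (r * x' ^ 2 + s * y' ^ 3) := by rw [hrs, mul_one]
          _ = _ := by ring
      rw [this]
      exact dvd_add (h4.mul_left _) (h5.mul_left _)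
    have h4 : d ∣ 30 ^ 10 := by
      refine hS.gcd d ?_ ?_
      · rw [← hdx]; exact dvd_mul_right _ _
      · rw [← hdy]; exact dvd_mul_right _ _
    have h5 : nrm g ≤ G ^ 3 := by
      calc nrm g ≤ nrm (d ^ 3) := nrm_le_of_dvd h3 (pow_ne_zero 3 hd0)
        _ = nrm d ^ 3 := nrm_pow d 3
        _ ≤ G ^ 3 := by
            have := nrm_le_of_dvd h4 hne30
            rw [← hG] at this
            exact pow_le_pow_left₀ (nrm_nonneg _) this 3
    -- the size
    have h6 : B ≤ G ^ 3 * ht3 a b c' := by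
      have h7 : B ≤ nrm g * ht3 a b c' := by
        rw [hB]
        unfold ht nrm ht3
        rw [← Finset.prod_mul_distrib]
        refine Finset.prod_le_prod (fun φ _ => mx_nonneg φ _ _) fun φ _ => ?_
        refine max_le ?_ ?_
        · have : φ (x : K) ^ 2 = φ (g : K) * φ (a : K) := by
            rw [← map_pow, ← map_mul]
            congr 1
            exact congrArg (fun t : 𝓞 K => (t : K)) hga.symm
          rw [← norm_pow, this, norm_mul]
          exact mul_le_mul_of_nonneg_left (le_max_left _ _) (norm_nonneg _)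
        · have : φ (y : K) ^ 3 = φ (g : K) * φ (b : K) := by
            rw [← map_pow, ← map_mul]
            congr 1
            exact congrArg (fun t : 𝓞 K => (t : K)) hgb.symm
          rw [← norm_pow, this, norm_mul]
          exact mul_le_mul_of_nonneg_left (le_max_of_le_right (le_max_left _ _)) (norm_nonneg _)
      refine h7.trans (mul_le_mul_of_nonneg_right h5 ?_)
      have := one_le_ht3 (b := b) (c := c') ha0
      linarith
    have h7 : (B * (1 / G ^ 3)) ^ (1 - δ) ≤ ht3 a b c' ^ (1 - δ) := by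
      refine Real.rpow_le_rpow (by positivity) ?_ (by linarith)
      rw [mul_one_div, div_le_iff₀ (by positivity)]
      linarith
    -- the radical
    have hzxy : 1728 * (x * y) ≠ (0 : 𝓞 K) := mul_ne_zero hne1728 (mul_ne_zero hx0 hy0)
    have h8 : rad (a * b * c') ≤ rad z * (G' * B ^ (5 / 6 : ℝ)) := by
      have h9 : P (a * b * c') ⊆ P (z * (1728 * (x * y))) := by
        intro v hv
        have hv : a * b * c' ∈ v.asIdeal := hv
        show z * (1728 * (x * y)) ∈ v.asIdeal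
        rcases mem_mul.1 hv with h10 | h10
        · rcases mem_mul.1 h10 with h11 | h11
          · have h12 : x ∈ v.asIdeal := by
              apply mem_pow (k := 2)
              rw [← hga]
              exact v.asIdeal.mul_mem_left _ h11
            exact v.asIdeal.mul_mem_left _ (v.asIdeal.mul_mem_left _ (v.asIdeal.mul_mem_right _ h12))
          · have h12 : y ∈ v.asIdeal := by
              apply mem_pow (k := 3)
              rw [← hgb]
              exact v.asIdeal.mul_mem_left _ h11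
            exact v.asIdeal.mul_mem_left _ (v.asIdeal.mul_mem_left _ (v.asIdeal.mul_mem_left _ h12))
        · have h12 : 1728 * z ^ 5 ∈ v.asIdeal := by
            have : 1728 * z ^ 5 = -(g * c') := by rw [hgc]; ring
            rw [this]
            exact v.asIdeal.neg_mem (v.asIdeal.mul_mem_left _ h10)
          rcases mem_mul.1 h12 with h13 | h13
          · exact v.asIdeal.mul_mem_left _ (v.asIdeal.mul_mem_right _ h13)
          · exact v.asIdeal.mul_mem_right _ (mem_pow h13)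
      have h10 := rad_mono hne (mul_ne_zero hS.z0 hzxy) h9
      refine (h10.trans (rad_mul_le hS.z0 hzxy)).trans ?_
      refine mul_le_mul_of_nonneg_left ?_ (by linarith)
      refine (rad_le hzxy).trans ?_
      rw [nrm_mul, nrm_mul, ← hG']
      refine mul_le_mul_of_nonneg_left ?_ hG'0.le
      have hx' : nrm x ≤ B ^ (1 / 2 : ℝ) := by
        have : nrm x ^ 2 ≤ B := by rw [hB]; exact nrm_sq_le x y
        calc nrm x = (nrm x ^ 2) ^ (1 / 2 : ℝ) := by
              rw [← Real.rpow_natCast, ← Real.rpow_mul (nrm_nonneg x)]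
              norm_num
          _ ≤ B ^ (1 / 2 : ℝ) := Real.rpow_le_rpow (by positivity) this (by norm_num)
      have hy' : nrm y ≤ B ^ (1 / 3 : ℝ) := by
        have : nrm y ^ 3 ≤ B := by rw [hB]; exact nrm_cb_le x y
        calc nrm y = (nrm y ^ 3) ^ (1 / 3 : ℝ) := by
              rw [← Real.rpow_natCast, ← Real.rpow_mul (nrm_nonneg y)]
              norm_num
          _ ≤ B ^ (1 / 3 : ℝ) := Real.rpow_le_rpow (pow_nonneg (nrm_nonneg _) _) this (by norm_num)
      calc nrm x * nrm y ≤ B ^ (1 / 2 : ℝ) * B ^ (1 / 3 : ℝ) :=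
            mul_le_mul hx' hy' (nrm_nonneg _) (by positivity)
        _ = B ^ (5 / 6 : ℝ) := by
            rw [← Real.rpow_add hB0]
            norm_num
    have h9 : c * (B * (1 / G ^ 3)) ^ (1 - δ) ≤ rad z * (G' * B ^ (5 / 6 : ℝ)) :=
      ((mul_le_mul_of_nonneg_left h7 hc.le).trans h2).trans h8
    have h10 : (B * (1 / G ^ 3)) ^ (1 - δ) =
        B ^ (1 / 6 - δ) * B ^ (5 / 6 : ℝ) * (1 / G ^ 3) ^ (1 - δ) := by
      rw [Real.mul_rpow hB0.le (by positivity), ← Real.rpow_add hB0]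
      congr 2
      ring
    rw [h10] at h9
    have h11 : c / G' * (1 / G ^ 3) ^ (1 - δ) * B ^ (1 / 6 - δ) ≤ rad z := by
      have hB5 : 0 < G' * B ^ (5 / 6 : ℝ) := by positivity
      refine le_of_mul_le_mul_right ?_ hB5
      refine le_trans (le_of_eq ?_) h9
      field_simp
    refine le_trans ?_ h11
    exact mul_le_mul (min_le_right _ _) hexp (by positivity) (by positivity)

theorem ht_pow (u v : 𝓞 K) : (∏ φ : K →+* ℂ, ‖φ ((H u v : 𝓞 K) : K)‖ ^ 3) ≤ ht (T u v) (H u v) :=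
  Finset.prod_le_prod (fun _ _ => by positivity) fun _ _ => le_max_right _ _

/-- the exponent is the best possible -/
theorem sharp (L : ℝ) : ∃ u v : 𝓞 K, IsCoprime u v ∧ f u v ≠ 0 ∧
    L ≤ ht (T u v) (H u v) ∧
    rad (f u v) ^ 6 ≤ (26 ^ Fintype.card (K →+* ℂ)) ^ 6 * ht (T u v) (H u v) := by
  obtain ⟨n, hn⟩ : ∃ n, n = Fintype.card (K →+* ℂ) := ⟨_, rfl⟩
  have hn1 : n ≠ 0 := by
    rw [hn, card_emb]
    exact Module.finrank_pos.ne'
  obtain ⟨k, hk⟩ := pow_unbounded_of_one_lt L (show (1 : ℝ) < 2 by norm_num)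
  obtain ⟨m, hm⟩ : ∃ m, m = 2 ^ (k + 1) := ⟨_, rfl⟩
  have hm2 : 2 ≤ m := by
    rw [hm, pow_succ]
    have : 1 ≤ 2 ^ k := Nat.one_le_two_pow
    omega
  have hmR : (2 : ℝ) ≤ m := by exact_mod_cast hm2
  have hm0 : (m : 𝓞 K) ≠ 0 := ne_num (by omega)
  have hcoe : ∀ (φ : K →+* ℂ) (j : ℕ), φ (((j : ℕ) : 𝓞 K) : K) = (j : ℂ) := by
    intro φ j
    show (φ.comp (algebraMap (𝓞 K) K)) (j : 𝓞 K) = _
    rw [map_natCast]
  -- the norm of a natural number
  have hnat : ∀ j : ℕ, nrm (j : 𝓞 K) = (j : ℝ) ^ n := by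
    intro j
    unfold nrm
    rw [Finset.prod_congr rfl fun φ _ => by rw [hcoe φ j, Complex.norm_natCast], Finset.prod_const,
      Finset.card_univ, hn]
  have hf : f 1 (m : 𝓞 K) = m * (-((m ^ 10 - 11 * m ^ 5 - 1 : ℤ) : 𝓞 K)) := by
    unfold f
    push_cast
    ring
  have hint : (m : ℤ) ^ 10 - 11 * m ^ 5 - 1 ≠ 0 := by
    have h1 : (32 : ℤ) ≤ (m : ℤ) ^ 5 := by
      have : (2 : ℤ) ^ 5 ≤ (m : ℤ) ^ 5 := pow_le_pow_left₀ (by norm_num) (by exact_mod_cast hm2) 5
      linarith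
    have h2 : (m : ℤ) ^ 10 = (m : ℤ) ^ 5 * (m : ℤ) ^ 5 := by ring
    rw [h2]
    nlinarith
  have hne : (-((m ^ 10 - 11 * m ^ 5 - 1 : ℤ) : 𝓞 K)) ≠ 0 := neg_ne_zero.2 (Int.cast_ne_zero.2 hint)
  have hnorm : nrm (-((m ^ 10 - 11 * m ^ 5 - 1 : ℤ) : 𝓞 K)) ≤ (13 * (m : ℝ) ^ 10) ^ n := by
    unfold nrm
    rw [hn, ← Finset.card_univ, ← Finset.prod_const]
    refine Finset.prod_le_prod (fun _ _ => norm_nonneg _) fun φ _ => ?_
    have e1 : φ ((-((m ^ 10 - 11 * m ^ 5 - 1 : ℤ) : 𝓞 K) : 𝓞 K) : K) =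
        -(((m : ℂ)) ^ 10 - 11 * (m : ℂ) ^ 5 - 1) := by
      show (φ.comp (algebraMap (𝓞 K) K)) _ = _
      rw [map_neg, map_intCast]
      push_cast
      rfl
    rw [e1, norm_neg]
    refine (norm_sub_le _ _).trans ?_
    refine (add_le_add_left (norm_sub_le _ _) _).trans ?_
    rw [norm_one, norm_mul, norm_pow, norm_pow, Complex.norm_natCast]
    have h5 : (m : ℝ) ^ 5 ≤ (m : ℝ) ^ 10 := pow_le_pow_right₀ (by linarith) (by norm_num)
    have h0 : (1 : ℝ) ≤ (m : ℝ) ^ 10 := one_le_pow₀ (by linarith)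
    norm_num
    linarith
  -- the radical
  have h20 : (2 : 𝓞 K) ≠ 0 := by
    have := ne_num (K := K) (n := 2) (by norm_num)
    exact_mod_cast this
  have hrad2 : rad (m : 𝓞 K) ≤ 2 ^ n := by
    have h1 : P (m : 𝓞 K) ⊆ P (2 : 𝓞 K) := by
      intro v hv
      have hv : (m : 𝓞 K) ∈ v.asIdeal := hv
      rw [hm] at hv
      push_cast at hv
      exact mem_pow hv
    refine (rad_mono hm0 h20 h1).trans ((rad_le h20).trans ?_)
    have := hnat 2
    push_cast at this
    exact this.le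
  have hrad : rad (f 1 (m : 𝓞 K)) ≤ 26 ^ n * ((m : ℝ) ^ 10) ^ n := by
    rw [hf]
    refine (rad_mul_le hm0 hne).trans ?_
    calc _ ≤ 2 ^ n * (13 * (m : ℝ) ^ 10) ^ n := by
          refine mul_le_mul hrad2 ((rad_le hne).trans hnorm)
            (zero_le_one.trans (one_le_rad hne)) (by positivity)
      _ = 26 ^ n * ((m : ℝ) ^ 10) ^ n := by
          rw [← mul_pow, ← mul_pow]
          congr 1
          ring
  -- the height
  have hHt : ((m : ℝ) ^ 60) ^ n ≤ ht (T 1 (m : 𝓞 K)) (H 1 (m : 𝓞 K)) := by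
    refine le_trans ?_ (ht_pow 1 (m : 𝓞 K))
    rw [hn, ← Finset.card_univ, ← Finset.prod_const]
    refine Finset.prod_le_prod (fun _ _ => by positivity) fun φ _ => ?_
    have e1 : φ ((H 1 (m : 𝓞 K) : 𝓞 K) : K) =
        -(((m ^ 20 + 228 * m ^ 15 + 494 * m ^ 10 + 1 - 228 * m ^ 5 : ℝ)) : ℂ) := by
      rw [coe_H, hcoe]
      have : φ (((1 : 𝓞 K)) : K) = 1 := by
        show (φ.comp (algebraMap (𝓞 K) K)) 1 = _
        rw [map_one]
      rw [this]
      unfold H
      push_cast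
      ring
    rw [e1, norm_neg, Complex.norm_real, Real.norm_eq_abs]
    have h5 : (m : ℝ) ^ 5 ≤ (m : ℝ) ^ 10 := pow_le_pow_right₀ (by linarith) (by norm_num)
    have h15 : (0 : ℝ) ≤ (m : ℝ) ^ 15 := by positivity
    have h10 : (0 : ℝ) ≤ (m : ℝ) ^ 10 := by positivity
    calc (m : ℝ) ^ 60 = ((m : ℝ) ^ 20) ^ 3 := by ring
      _ ≤ _ := by
        refine pow_le_pow_left₀ (by positivity) ?_ 3
        refine le_trans ?_ (le_abs_self _)
        linarith
  refine ⟨1, m, isCoprime_one_left, ?_, ?_, ?_⟩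
  · rw [hf]
    exact mul_ne_zero hm0 hne
  · refine le_trans ?_ hHt
    calc L ≤ 2 ^ k := hk.le
      _ ≤ 2 ^ (k + 1) := pow_le_pow_right₀ (by norm_num) (by omega)
      _ = (m : ℝ) := by rw [hm]; push_cast; rfl
      _ ≤ (m : ℝ) ^ 60 := le_self_pow₀ (by linarith) (by norm_num)
      _ ≤ ((m : ℝ) ^ 60) ^ n := le_self_pow₀ (one_le_pow₀ (by linarith)) hn1
  · rw [← hn]
    calc rad (f 1 (m : 𝓞 K)) ^ 6 ≤ (26 ^ n * ((m : ℝ) ^ 10) ^ n) ^ 6 := by
          refine pow_le_pow_left₀ ?_ hrad 6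
          refine zero_le_one.trans (one_le_rad ?_)
          rw [hf]
          exact mul_ne_zero hm0 hne
      _ = (26 ^ n) ^ 6 * ((m : ℝ) ^ 60) ^ n := by
          rw [mul_pow]
          congr 1
          rw [← pow_mul, ← pow_mul, ← pow_mul]
          congr 1
          ring
      _ ≤ _ := mul_le_mul_of_nonneg_left hHt (by positivity)

end Pool.Agent.U624.Ico
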